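import Mathlib
import Pool.Agent.V114.PdHelper

/-!
A ring that is weakly Lee 2-coherent but not Lee 2-coherent.
-/

namespace Pool.Agent.Results.MP_0b9bd1_al.WeaklyLeeNotLee

open CategoryTheory Pool.Agent.V114.PdHelper

set_option linter.unusedSectionVars false

noncomputable section

universe u

/-- `R` is (left) Lee `n`-coherent: each finitely generated submodule `K` of some `R^m` with
`pd K ≤ n - 1` is finitely presented. -/
def IsLeeCoherent (R : Type u) [Ring R] (n : ℕ∞) : Prop :=
  ∀ (m : ℕ) (K : Submodule R (Fin m → R)), K.FG →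
    projectiveDimension (ModuleCat.of R K) ≤ ((n - 1 : ℕ∞) : WithBot ℕ∞) →
    Module.FinitePresentation R K

/-- `R` is weakly (left) Lee `n`-coherent: each finitely generated left ideal `I` with
`pd I ≤ n - 1` is finitely presented. -/
def IsWeaklyLeeCoherent (R : Type u) [Ring R] (n : ℕ∞) : Prop :=
  ∀ I : Submodule R R, I.FG →
    projectiveDimension (ModuleCat.of R I) ≤ ((n - 1 : ℕ∞) : WithBot ℕ∞) →
    Module.FinitePresentation R I

/-- The algebra: orthogonal idempotents `e_0,…,e_3` (coefficients `d`) and radical basis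
`t ∈ e_3Re_3`, `x,y ∈ e_3Re_1`, `c_i ∈ e_0Re_1`, `a,b ∈ e_1Re_2`, `w = xb = ya ∈ e_3Re_2`. -/
@[ext] structure Q (k : Type) [Field k] where
  /-- diagonal coefficients -/
  d : Fin 4 → k
  /-- coefficient of `t` -/
  t : k
  /-- coefficient of `x` -/
  x : k
  /-- coefficient of `y` -/
  y : k
  /-- coefficients of the `c_i` -/
  c : ℕ →₀ k
  /-- coefficient of `a` -/
  a : k
  /-- coefficient of `b` -/
  b : k
  /-- coefficient of `w` -/
  w : k

namespace Q

variable {k : Type} [Field k]

instance : Zero (Q k) := ⟨⟨0, 0, 0, 0, 0, 0, 0, 0⟩⟩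
instance : One (Q k) := ⟨⟨1, 0, 0, 0, 0, 0, 0, 0⟩⟩
instance : Add (Q k) := ⟨fun p q => ⟨p.d + q.d, p.t + q.t, p.x + q.x, p.y + q.y, p.c + q.c,
  p.a + q.a, p.b + q.b, p.w + q.w⟩⟩
instance : Neg (Q k) := ⟨fun p => ⟨-p.d, -p.t, -p.x, -p.y, -p.c, -p.a, -p.b, -p.w⟩⟩
instance : Mul (Q k) := ⟨fun p q => ⟨p.d * q.d, p.d 3 * q.t + p.t * q.d 3,
  p.d 3 * q.x + p.x * q.d 1, p.d 3 * q.y + p.y * q.d 1, p.d 0 • q.c + q.d 1 • p.c,
  p.d 1 * q.a + p.a * q.d 2, p.d 1 * q.b + p.b * q.d 2,
  p.d 3 * q.w + p.w * q.d 2 + p.x * q.b + p.y * q.a⟩⟩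

@[simp] lemma zero_d (i) : (0 : Q k).d i = 0 := rfl
@[simp] lemma zero_t : (0 : Q k).t = 0 := rfl
@[simp] lemma zero_x : (0 : Q k).x = 0 := rfl
@[simp] lemma zero_y : (0 : Q k).y = 0 := rfl
@[simp] lemma zero_c : (0 : Q k).c = 0 := rfl
@[simp] lemma zero_a : (0 : Q k).a = 0 := rfl
@[simp] lemma zero_b : (0 : Q k).b = 0 := rfl
@[simp] lemma zero_w : (0 : Q k).w = 0 := rfl
@[simp] lemma one_d (i) : (1 : Q k).d i = 1 := rfl
@[simp] lemma one_t : (1 : Q k).t = 0 := rfl
@[simp] lemma one_x : (1 : Q k).x = 0 := rfl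
@[simp] lemma one_y : (1 : Q k).y = 0 := rfl
@[simp] lemma one_c : (1 : Q k).c = 0 := rfl
@[simp] lemma one_a : (1 : Q k).a = 0 := rfl
@[simp] lemma one_b : (1 : Q k).b = 0 := rfl
@[simp] lemma one_w : (1 : Q k).w = 0 := rfl
@[simp] lemma add_d (p q : Q k) (i) : (p + q).d i = p.d i + q.d i := rfl
@[simp] lemma add_t (p q : Q k) : (p + q).t = p.t + q.t := rfl
@[simp] lemma add_x (p q : Q k) : (p + q).x = p.x + q.x := rfl
@[simp] lemma add_y (p q : Q k) : (p + q).y = p.y + q.y := rfl
@[simp] lemma add_c (p q : Q k) : (p + q).c = p.c + q.c := rfl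
@[simp] lemma add_a (p q : Q k) : (p + q).a = p.a + q.a := rfl
@[simp] lemma add_b (p q : Q k) : (p + q).b = p.b + q.b := rfl
@[simp] lemma add_w (p q : Q k) : (p + q).w = p.w + q.w := rfl
@[simp] lemma neg_d (p : Q k) (i) : (-p).d i = -p.d i := rfl
@[simp] lemma neg_t (p : Q k) : (-p).t = -p.t := rfl
@[simp] lemma neg_x (p : Q k) : (-p).x = -p.x := rfl
@[simp] lemma neg_y (p : Q k) : (-p).y = -p.y := rfl
@[simp] lemma neg_c (p : Q k) : (-p).c = -p.c := rfl
@[simp] lemma neg_a (p : Q k) : (-p).a = -p.a := rfl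
@[simp] lemma neg_b (p : Q k) : (-p).b = -p.b := rfl
@[simp] lemma neg_w (p : Q k) : (-p).w = -p.w := rfl
@[simp] lemma mul_d (p q : Q k) (i) : (p * q).d i = p.d i * q.d i := rfl
@[simp] lemma mul_t (p q : Q k) : (p * q).t = p.d 3 * q.t + p.t * q.d 3 := rfl
@[simp] lemma mul_x (p q : Q k) : (p * q).x = p.d 3 * q.x + p.x * q.d 1 := rfl
@[simp] lemma mul_y (p q : Q k) : (p * q).y = p.d 3 * q.y + p.y * q.d 1 := rfl
@[simp] lemma mul_c (p q : Q k) : (p * q).c = p.d 0 • q.c + q.d 1 • p.c := rfl
@[simp] lemma mul_a (p q : Q k) : (p * q).a = p.d 1 * q.a + p.a * q.d 2 := rfl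
@[simp] lemma mul_b (p q : Q k) : (p * q).b = p.d 1 * q.b + p.b * q.d 2 := rfl
@[simp] lemma mul_w (p q : Q k) :
    (p * q).w = p.d 3 * q.w + p.w * q.d 2 + p.x * q.b + p.y * q.a := rfl

instance : Ring (Q k) := Ring.ofMinimalAxioms
  (fun a b c => by ext <;> simp [add_assoc])
  (fun a => by ext <;> simp)
  (fun a => by ext <;> simp)
  (fun a b c => by ext <;> simp <;> ring)
  (fun a => by ext <;> simp)
  (fun a => by ext <;> simp)
  (fun a b c => by ext <;> simp <;> ring)
  (fun a b c => by ext <;> simp <;> ring)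

/-- the idempotents -/
def e (i : Fin 4) : Q k := ⟨Pi.single i 1, 0, 0, 0, 0, 0, 0, 0⟩
/-- the element `t` -/
def et : Q k := ⟨0, 1, 0, 0, 0, 0, 0, 0⟩
/-- the elements `c_i` -/
def ec (i : ℕ) : Q k := ⟨0, 0, 0, 0, Finsupp.single i 1, 0, 0, 0⟩

@[simp] lemma e_d (i j : Fin 4) : (e i : Q k).d j = if j = i then 1 else 0 := by
  simp [e, Pi.single_apply]
@[simp] lemma e_t (i : Fin 4) : (e i : Q k).t = 0 := rfl
@[simp] lemma e_x (i : Fin 4) : (e i : Q k).x = 0 := rfl
@[simp] lemma e_y (i : Fin 4) : (e i : Q k).y = 0 := rfl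
@[simp] lemma e_c (i : Fin 4) : (e i : Q k).c = 0 := rfl
@[simp] lemma e_a (i : Fin 4) : (e i : Q k).a = 0 := rfl
@[simp] lemma e_b (i : Fin 4) : (e i : Q k).b = 0 := rfl
@[simp] lemma e_w (i : Fin 4) : (e i : Q k).w = 0 := rfl

lemma e_mul_e (i : Fin 4) : (e i : Q k) * e i = e i := by
  ext j <;> simp

lemma sum_e : ∑ i : Fin 4, (e i : Q k) = 1 := by
  simp only [Fin.sum_univ_four]
  ext j
  · fin_cases j <;> simp
  all_goals simp

end Q

open Q

variable {k : Type} [Field k]

/-- Elements of `N` whose coordinates have zero diagonal part: `N` projective forces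
`N = e_0 N`. -/
lemma eq_e0_smul {N : Type} [AddCommGroup N] [Module (Q k) N] [Module.Projective (Q k) N] {m : ℕ}
    (κ : N →ₗ[Q k] (Fin m → Q k)) (hκ : Function.Injective κ)
    (hJ : ∀ n s i, (κ n s).d i = 0) (n : N) : (e 0 : Q k) • n = n := by
  obtain ⟨σ, hσ⟩ := (Module.projective_def'.1 (inferInstance : Module.Projective (Q k) N))
  have hdual : ∀ n : N, n = (σ n).sum fun m r => r • m := by
    intro n
    have := LinearMap.congr_fun hσ n
    rw [LinearMap.comp_apply, Finsupp.linearCombination_apply] at this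
    simpa using this.symm
  have hκe : ∀ (r : Q k) (n : N) (s : Fin m), κ (r • n) s = r * κ n s := by
    intro r n s; rw [map_smul]; rfl
  have hzero : ∀ (r : Q k) (n : N), (∀ s, r * κ n s = 0) → r • n = 0 := by
    intro r n h
    apply hκ
    rw [map_zero]
    ext1 s
    rw [hκe, h]; rfl
  -- step 1: e_1 N = 0
  have h1 : ∀ n : N, (e 1 : Q k) • n = 0 := by
    intro n0
    set n := (e 1 : Q k) • n0 with hn
    have he : (e 1 : Q k) • n = n := by rw [hn, smul_smul, e_mul_e]
    have hc : (ec 0 : Q k) • n = 0 := by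
      apply hzero
      intro s
      ext j <;> simp [ec, hJ]
    rw [hdual n]
    apply Finset.sum_eq_zero
    intro m' _
    set r := σ n m' with hr
    have hr1 : (e 1 : Q k) * r = r := by
      have := congrArg (fun f => f m') (congrArg σ he)
      simpa [hr] using this
    have hr2 : (ec 0 : Q k) * r = 0 := by
      have := congrArg (fun f => f m') (congrArg σ hc)
      simpa [hr] using this
    have d1 : r.d 1 = 0 := by
      have := congrArg (fun q : Q k => q.c 0) hr2
      simpa [ec] using this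
    have dx : r.x = 0 := by
      have := congrArg (fun q : Q k => q.x) hr1
      simpa using this.symm
    have dy : r.y = 0 := by
      have := congrArg (fun q : Q k => q.y) hr1
      simpa using this.symm
    have dd : ∀ j, r.d j = 0 := by
      intro j
      have := congrArg (fun q : Q k => q.d j) hr1
      by_cases hj : j = 1
      · rw [hj, d1]
      · simpa [hj] using this.symm
    apply hzero
    intro s
    ext j <;> simp [hJ, dx, dy, dd]
  -- step 2: e_3 N = 0
  have h3 : ∀ n : N, (e 3 : Q k) • n = 0 := by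
    intro n0
    set n := (e 3 : Q k) • n0 with hn
    have he : (e 3 : Q k) • n = n := by rw [hn, smul_smul, e_mul_e]
    have hc : (et : Q k) • n = 0 := by
      apply hzero
      intro s
      ext j <;> simp [et, hJ]
    rw [hdual n]
    apply Finset.sum_eq_zero
    intro m' _
    set r := σ n m' with hr
    have hr1 : (e 3 : Q k) * r = r := by
      have := congrArg (fun f => f m') (congrArg σ he)
      simpa [hr] using this
    have hr2 : (et : Q k) * r = 0 := by
      have := congrArg (fun f => f m') (congrArg σ hc)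
      simpa [hr] using this
    have d3 : r.d 3 = 0 := by
      have := congrArg (fun q : Q k => q.t) hr2
      simpa [et] using this
    have dd : ∀ j, r.d j = 0 := by
      intro j
      have := congrArg (fun q : Q k => q.d j) hr1
      by_cases hj : j = 3
      · rw [hj, d3]
      · simpa [hj] using this.symm
    apply hzero
    intro s
    have hz : (e 1 : Q k) * κ m' s = 0 := by rw [← hκe, h1]; simp
    have ha : (κ m' s).a = 0 := by
      have := congrArg (fun q : Q k => q.a) hz
      simpa using this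
    have hb : (κ m' s).b = 0 := by
      have := congrArg (fun q : Q k => q.b) hz
      simpa using this
    ext j <;> simp [hJ, dd, ha, hb]
  have h2 : ∀ n : N, (e 2 : Q k) • n = 0 := by
    intro n
    apply hzero
    intro s
    ext j <;> simp [hJ]
  have := sum_e (k := k)
  calc (e 0 : Q k) • n = (∑ i : Fin 4, (e i : Q k)) • n := by
        rw [Finset.sum_smul, Fin.sum_univ_four, h1, h2, h3]; simp
    _ = n := by rw [this, one_smul]

/-- A homogeneous generating family of `I` of size `m`. -/
def HomGen (I : Submodule (Q k) (Q k)) (m : ℕ) : Prop :=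
  ∃ (ty : Fin m → Fin 4) (u : Fin m → Q k), (∀ s, e (ty s) * u s = u s) ∧
    Submodule.span (Q k) (Set.range u) = I

lemma exists_homGen (I : Submodule (Q k) (Q k)) (hI : I.FG) : ∃ m, HomGen I m := by
  classical
  obtain ⟨m, g, hg⟩ := Submodule.fg_iff_exists_fin_generating_family.1 hI
  let f : Fin 4 × Fin m → Q k := fun p => e p.1 * g p.2
  let eqv := (Fintype.equivFin (Fin 4 × Fin m)).symm
  refine ⟨_, fun s => (eqv s).1, fun s => f (eqv s), fun s => ?_, ?_⟩
  · simp only [f, ← mul_assoc, e_mul_e]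
  · have : Set.range (fun s => f (eqv s)) = Set.range f := by
      ext z
      constructor
      · rintro ⟨s, rfl⟩; exact ⟨_, rfl⟩
      · rintro ⟨p, rfl⟩; exact ⟨eqv.symm p, by simp⟩
    rw [this]
    apply le_antisymm
    · rw [Submodule.span_le]
      rintro _ ⟨p, rfl⟩
      have h1 : g p.2 ∈ I := hg ▸ Submodule.subset_span ⟨p.2, rfl⟩
      exact I.smul_mem (e p.1) h1
    · rw [← hg, Submodule.span_le]
      rintro _ ⟨i, rfl⟩
      have h1 : g i = ∑ j : Fin 4, e j * g i := by
        rw [← Finset.sum_mul, sum_e, one_mul]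
      rw [h1]
      exact Submodule.sum_mem _ fun j _ => Submodule.subset_span ⟨(j, i), rfl⟩

lemma exists_inv (i : Fin 4) (q : Q k) (hq : q.d i ≠ 0) :
    ∃ q' : Q k, q' * (e i * (q * e i)) = e i := by
  by_cases h : i = 3
  · subst h
    refine ⟨⟨fun _ => (q.d 3)⁻¹, - q.t * (q.d 3)⁻¹ * (q.d 3)⁻¹, 0, 0, 0, 0, 0, 0⟩, ?_⟩
    ext j
    · by_cases hj : j = 3
      · subst hj; simp [hq]
      · simp [hj]
    · simp; field_simp; ring
    all_goals simp
  · refine ⟨⟨fun _ => (q.d i)⁻¹, 0, 0, 0, 0, 0, 0, 0⟩, ?_⟩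
    have h3 : (3 : Fin 4) ≠ i := Ne.symm h
    ext j
    · by_cases hj : j = i
      · subst hj; simp [hq]
      · simp [hj]
    · simp [h3]
    · simp [h3]
    · simp [h3]
    all_goals (fin_cases i <;> simp_all)

/-- A minimal homogeneous generating family has all relation coefficients in the radical. -/
lemma min_rel (I : Submodule (Q k) (Q k)) {m : ℕ} (hmin : ∀ m' < m, ¬ HomGen I m')
    (ty : Fin m → Fin 4) (u : Fin m → Q k) (hu : ∀ s, e (ty s) * u s = u s)
    (hspan : Submodule.span (Q k) (Set.range u) = I) (p : Fin m → Q k)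
    (hp : ∀ s, p s * e (ty s) = p s) (hrel : ∑ s, p s * u s = 0) (s0 : Fin m) (i : Fin 4) :
    (p s0).d i = 0 := by
  classical
  by_contra hcon
  have hi : i = ty s0 := by
    by_contra hne
    apply hcon
    have := congrArg (fun q : Q k => q.d i) (hp s0)
    simpa [hne] using this.symm
  subst hi
  obtain ⟨q', hq'⟩ := exists_inv _ _ hcon
  -- remove `s0`
  obtain ⟨m', rfl⟩ : ∃ m', m = m' + 1 := ⟨m - 1, by have := s0.2; omega⟩
  apply hmin m' (by omega)
  refine ⟨fun s => ty (s0.succAbove s), fun s => u (s0.succAbove s), fun s => hu _, ?_⟩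
  have hsub : ∀ s, s ≠ s0 → u s ∈ Submodule.span (Q k)
      (Set.range fun s => u (s0.succAbove s)) := by
    intro s hs
    obtain ⟨s', rfl⟩ := Fin.exists_succAbove_eq hs
    exact Submodule.subset_span ⟨s', rfl⟩
  have hs0 : u s0 ∈ Submodule.span (Q k) (Set.range fun s => u (s0.succAbove s)) := by
    have h1 : p s0 * u s0 = - ∑ s ∈ Finset.univ.erase s0, p s * u s := by
      rw [eq_neg_iff_add_eq_zero, ← Finset.sum_erase_add _ _ (Finset.mem_univ s0)] at *
      rw [add_comm]
      exact hrel
    have h2 : p s0 * u s0 ∈ Submodule.span (Q k) (Set.range fun s => u (s0.succAbove s)) := by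
      rw [h1]
      refine Submodule.neg_mem _ (Submodule.sum_mem _ fun s hs => ?_)
      exact Submodule.smul_mem _ (p s) (hsub s (Finset.ne_of_mem_erase hs))
    have h3 : u s0 = (q' * e (ty s0)) * (p s0 * u s0) := by
      conv_lhs => rw [← hu s0, ← hq']
      conv_rhs => rw [← hu s0]
      simp only [mul_assoc]
    rw [h3]
    exact Submodule.smul_mem _ (q' * e (ty s0)) h2
  rw [← hspan]
  apply le_antisymm
  · apply Submodule.span_mono
    rintro _ ⟨s, rfl⟩
    exact ⟨_, rfl⟩
  · rw [Submodule.span_le]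
    rintro _ ⟨s, rfl⟩
    by_cases hs : s = s0
    · subst hs; exact hs0
    · exact hsub s hs

/-- The summand `⊕ R e_{ty s}` of `R^m`. -/
def PP {m : ℕ} (ty : Fin m → Fin 4) : Submodule (Q k) (Fin m → Q k) where
  carrier := {p | ∀ s, p s * e (ty s) = p s}
  add_mem' := by
    intro p q hp hq s
    rw [Pi.add_apply, add_mul, hp s, hq s]
  zero_mem' := by intro s; simp
  smul_mem' := by
    intro r p hp s
    rw [Pi.smul_apply, smul_eq_mul, mul_assoc, hp s]

/-- the retraction -/
def retr {m : ℕ} (ty : Fin m → Fin 4) : (Fin m → Q k) →ₗ[Q k] (PP (k := k) ty) where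
  toFun p := ⟨fun s => p s * e (ty s), fun s => by rw [mul_assoc, e_mul_e]⟩
  map_add' p q := by
    apply Subtype.ext; ext1 s; exact add_mul _ _ _
  map_smul' r p := by
    apply Subtype.ext; ext1 s; exact mul_assoc _ _ _

lemma retr_comp {m : ℕ} (ty : Fin m → Fin 4) :
    (retr ty).comp (PP (k := k) ty).subtype = LinearMap.id := by
  ext1 p
  apply Subtype.ext
  ext1 s
  exact p.2 s

instance {m : ℕ} (ty : Fin m → Fin 4) : Module.Projective (Q k) (PP (k := k) ty) :=
  Module.Projective.of_split _ _ (retr_comp ty)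

instance {m : ℕ} (ty : Fin m → Fin 4) : Module.Finite (Q k) (PP (k := k) ty) := by
  apply Module.Finite.of_surjective (retr ty)
  intro p
  exact ⟨(PP ty).subtype p, LinearMap.congr_fun (retr_comp ty) p⟩

/-- Every finitely generated left ideal of projective dimension at most one is projective and
finitely presented. -/
theorem weakly (k : Type) [Field k] : IsWeaklyLeeCoherent (Q k) 2 := by
  classical
  intro I hI hpd
  have hpd' : projectiveDimension (ModuleCat.of (Q k) I) ≤ ((1 : ℕ) : WithBot ℕ∞) := by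
    have : (((2 : ℕ∞) - 1 : ℕ∞) : WithBot ℕ∞) = ((1 : ℕ) : WithBot ℕ∞) := by
      have h2 : ((2 : ℕ∞) - 1) = 1 := by
        have : (2 : ℕ∞) = 1 + 1 := by norm_num
        rw [this]
        exact ENat.addLECancellable_of_ne_top (by simp) |>.add_tsub_cancel_left
      rw [h2]; rfl
    rwa [this] at hpd
  have hex := exists_homGen I hI
  obtain ⟨ty, u, hu, hspan⟩ := Nat.find_spec hex
  have hmin : ∀ m' < Nat.find hex, ¬ HomGen I m' := fun m' hm' => Nat.find_min hex hm'
  generalize Nat.find hex = m at ty u hu hspan hmin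
  have huI : ∀ s, u s ∈ I := fun s => hspan ▸ Submodule.subset_span ⟨s, rfl⟩
  -- the map `P → I`
  let F0 : (Fin m → Q k) →ₗ[Q k] I :=
    { toFun := fun p => ∑ s, p s • (⟨u s, huI s⟩ : I)
      map_add' := by
        intro p q
        simp only [Pi.add_apply, add_smul, Finset.sum_add_distrib]
      map_smul' := by
        intro r p
        simp only [Pi.smul_apply, smul_eq_mul, Finset.smul_sum, mul_smul, RingHom.id_apply] }
  have hF0 : ∀ p, (F0 p : Q k) = ∑ s, p s * u s := by
    intro p
    change ((∑ s, p s • (⟨u s, huI s⟩ : I) : I) : Q k) = _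
    rw [Submodule.coe_sum]
    rfl
  let F : (PP (k := k) ty) →ₗ[Q k] I := F0.comp (PP ty).subtype
  have hF : ∀ p, (F p : Q k) = ∑ s, (p : Fin m → Q k) s * u s := fun p => hF0 _
  have hFs : Function.Surjective F := by
    rintro ⟨z, hz⟩
    have hz' : z ∈ Submodule.span (Q k) (Set.range u) := hspan.symm ▸ hz
    obtain ⟨c, hc⟩ := (Submodule.mem_span_range_iff_exists_fun _).1 hz'
    refine ⟨retr ty c, Subtype.ext ?_⟩
    rw [hF]
    change ∑ s, c s * e (ty s) * u s = z
    rw [← hc]
    refine Finset.sum_congr rfl fun s _ => ?_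
    rw [mul_assoc, hu s]; rfl
  have hproj : Module.Projective (Q k) (LinearMap.ker F) := (pd_le_one_iff F hFs).1 hpd'
  -- every relation has coefficients in the radical
  have hJ : ∀ (n : LinearMap.ker F) s i, (((n : PP (k := k) ty) : Fin m → Q k) s).d i = 0 := by
    intro n s i
    refine min_rel I hmin ty u hu hspan _ (n : PP (k := k) ty).2 ?_ s i
    rw [← hF, LinearMap.mem_ker.1 n.2]; rfl
  have he0 : ∀ n : LinearMap.ker F, (e 0 : Q k) • n = n := fun n =>
    eq_e0_smul ((PP ty).subtype.comp (LinearMap.ker F).subtype)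
      (by
        intro a b hab
        exact Subtype.ext (Subtype.ext hab)) (fun n s i => hJ n s i) n
  -- conclusion: the kernel is zero
  have hker : LinearMap.ker F = ⊥ := by
    rw [Submodule.eq_bot_iff]
    intro n hn
    set z : Fin m → Q k := (n : Fin m → Q k) with hz
    have hz0 : ∀ s, e 0 * z s = z s := by
      intro s
      have := he0 ⟨n, hn⟩
      have := congrArg (fun q : LinearMap.ker F => ((q : PP (k := k) ty) : Fin m → Q k) s) this
      exact this
    have hzd : ∀ s i, (z s).d i = 0 := fun s i => hJ ⟨n, hn⟩ s i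
    have hrel : ∑ s, z s * u s = 0 := by
      rw [← hF n, LinearMap.mem_ker.1 hn]; rfl
    have hzt : ∀ s, (z s).t = 0 := fun s => by
      have := congrArg (fun q : Q k => q.t) (hz0 s); simpa using this.symm
    have hzx : ∀ s, (z s).x = 0 := fun s => by
      have := congrArg (fun q : Q k => q.x) (hz0 s); simpa using this.symm
    have hzy : ∀ s, (z s).y = 0 := fun s => by
      have := congrArg (fun q : Q k => q.y) (hz0 s); simpa using this.symm
    have hza : ∀ s, (z s).a = 0 := fun s => by
      have := congrArg (fun q : Q k => q.a) (hz0 s); simpa using this.symm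
    have hzb : ∀ s, (z s).b = 0 := fun s => by
      have := congrArg (fun q : Q k => q.b) (hz0 s); simpa using this.symm
    have hzw : ∀ s, (z s).w = 0 := fun s => by
      have := congrArg (fun q : Q k => q.w) (hz0 s); simpa using this.symm
    -- the `c`-part vanishes
    have hzc : ∀ s, (z s).c = 0 := by
      by_contra hcon
      push Not at hcon
      obtain ⟨s0, hs0⟩ := hcon
      obtain ⟨i, hi⟩ := DFunLike.ne_iff.1 hs0
      let lam : Fin m → k := fun s => (z s).c i
      have hlam0 : lam s0 ≠ 0 := hi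
      have hlamty : ∀ s, ty s ≠ 1 → lam s = 0 := by
        intro s hs
        have := congrArg (fun q : Q k => q.c i) ((n : PP (k := k) ty).2 s)
        simp only [mul_c, e_c, smul_zero, e_d, zero_add, Finsupp.smul_apply] at this
        rw [if_neg (Ne.symm hs), zero_smul] at this
        exact this.symm
      have hlamrel : ∑ s, lam s * (u s).d 1 = 0 := by
        have h1 : (∑ s, z s * u s).c i = ∑ s, (z s * u s).c i :=
          map_sum (⟨⟨fun q : Q k => q.c i, rfl⟩, fun _ _ => rfl⟩ : Q k →+ k) _ _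
        rw [hrel] at h1
        rw [← show (0 : Q k).c i = 0 from rfl, h1]
        refine Finset.sum_congr rfl fun s _ => ?_
        simp [hzd, lam, mul_comm]
      let L : k → Q k := fun l => ⟨Pi.single 1 l, 0, 0, 0, 0, 0, 0, 0⟩
      have hLd : ∀ l j, (L l).d j = if j = 1 then l else 0 := by
        intro l j; simp [L, Pi.single_apply]
      have hLt : ∀ l, (L l).t = 0 := fun _ => rfl
      have hLx : ∀ l, (L l).x = 0 := fun _ => rfl
      have hLy : ∀ l, (L l).y = 0 := fun _ => rfl
      have hLc : ∀ l, (L l).c = 0 := fun _ => rfl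
      have hLa : ∀ l, (L l).a = 0 := fun _ => rfl
      have hLb : ∀ l, (L l).b = 0 := fun _ => rfl
      have hLw : ∀ l, (L l).w = 0 := fun _ => rfl
      have hL0 : L 0 = 0 := by
        ext j
        · rw [hLd]; simp
        all_goals rfl
      have hLmem : ∀ s, L (lam s) * e (ty s) = L (lam s) := by
        intro s
        by_cases hs : ty s = 1
        · rw [hs]
          ext j
          · by_cases hj : j = 1
            · subst hj; simp [hLd]
            · simp [hLd, hj]
          all_goals simp [hLd, hLt, hLx, hLy, hLc, hLa, hLb, hLw]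
        · rw [hlamty s hs, hL0, zero_mul]
      set v : Q k := ∑ s, L (lam s) * u s with hv
      have he1 : e 1 * v = v := by
        rw [hv, Finset.mul_sum]
        refine Finset.sum_congr rfl fun s _ => ?_
        rw [← mul_assoc]
        congr 1
        ext j
        · by_cases hj : j = 1
          · subst hj; simp [hLd]
          · simp [hLd, hj]
        all_goals simp [hLt, hLx, hLy, hLc, hLa, hLb, hLw]
      have hvd1 : v.d 1 = 0 := by
        have h1 : v.d 1 = ∑ s, (L (lam s) * u s).d 1 :=
          map_sum (⟨⟨fun q : Q k => q.d 1, rfl⟩, fun _ _ => rfl⟩ : Q k →+ k) _ _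
        rw [h1, ← hlamrel]
        refine Finset.sum_congr rfl fun s _ => ?_
        simp [hLd]
      have hvd : ∀ j, v.d j = 0 := by
        intro j
        by_cases hj : j = 1
        · rw [hj, hvd1]
        · have := congrArg (fun q : Q k => q.d j) he1
          simpa [hj] using this.symm
      let xv : Q k := ⟨0, 0, -v.a, v.b, 0, 0, 0, 0⟩
      have hxvv : xv * v = 0 := by
        ext j
        · change (0 : k) * v.d j = 0
          rw [zero_mul]
        · change (0 : k) * v.t + 0 * v.d 3 = 0
          ring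
        · change (0 : k) * v.x + -v.a * v.d 1 = 0
          rw [hvd]; ring
        · change (0 : k) * v.y + v.b * v.d 1 = 0
          rw [hvd]; ring
        · change ((0 : k) • v.c + v.d 1 • (0 : ℕ →₀ k)) _ = 0
          rw [hvd]; simp
        · change (0 : k) * v.a + 0 * v.d 2 = 0
          ring
        · change (0 : k) * v.b + 0 * v.d 2 = 0
          ring
        · change (0 : k) * v.w + 0 * v.d 2 + -v.a * v.b + v.b * v.a = 0
          ring
      have hkerp : (⟨fun s => xv * L (lam s), fun s => by rw [mul_assoc, hLmem]⟩ : PP (k := k) ty) ∈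
          LinearMap.ker F := by
        rw [LinearMap.mem_ker]
        apply Subtype.ext
        rw [hF]
        change ∑ s, xv * L (lam s) * u s = 0
        simp_rw [mul_assoc]
        rw [← Finset.mul_sum, ← hv, hxvv]
      have hp0 : e 0 * (xv * L (lam s0)) = xv * L (lam s0) := by
        have := he0 ⟨_, hkerp⟩
        exact congrArg (fun q : LinearMap.ker F => ((q : PP (k := k) ty) : Fin m → Q k) s0) this
      have hva : v.a = 0 := by
        have h1 := congrArg (fun q : Q k => q.x) hp0
        simp only [mul_x, e_d, e_x, hLd, hLx] at h1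
        have h2 : -v.a * lam s0 = 0 := by simpa [xv] using h1
        rcases mul_eq_zero.1 h2 with h3 | h3
        · simpa using h3
        · exact absurd h3 hlam0
      have hvb : v.b = 0 := by
        have h1 := congrArg (fun q : Q k => q.y) hp0
        simp only [mul_y, e_d, e_y, hLd, hLy] at h1
        have h2 : v.b = 0 ∨ lam s0 = 0 := by simpa [xv] using h1
        exact h2.resolve_right hlam0
      have hv0 : v = 0 := by
        rw [← he1]
        ext j <;> simp [hvd, hva, hvb]
      have := min_rel I hmin ty u hu hspan (fun s => L (lam s)) hLmem hv0 s0 1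
      rw [hLd, if_pos rfl] at this
      exact hlam0 this
    apply Subtype.ext
    ext s j
    · exact hzd s j
    · exact hzt s
    · exact hzx s
    · exact hzy s
    · rw [show ((n : Fin m → Q k) s).c = 0 from hzc s]; rfl
    · exact hza s
    · exact hzb s
    · exact hzw s
  have hinj : Function.Injective F := LinearMap.ker_eq_bot.1 hker
  have := Module.finitePresentation_of_projective (Q k) (PP (k := k) ty)
  exact Module.FinitePresentation.of_equiv (LinearEquiv.ofBijective F ⟨hinj, hFs⟩)

/-- the element `a` -/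
def ea : Q k := ⟨0, 0, 0, 0, 0, 1, 0, 0⟩
/-- the element `b` -/
def eb : Q k := ⟨0, 0, 0, 0, 0, 0, 1, 0⟩

/-- The kernel of `R → R (a,b)`. -/
def LL (k : Type) [Field k] : Submodule (Q k) (Q k) where
  carrier := {r | r.d 1 = 0 ∧ r.x = 0 ∧ r.y = 0}
  add_mem' := by
    rintro p q ⟨h1, h2, h3⟩ ⟨h4, h5, h6⟩
    refine ⟨by simp [h1, h4], by simp [h2, h5], by simp [h3, h6]⟩
  zero_mem' := ⟨rfl, rfl, rfl⟩
  smul_mem' := by
    rintro r p ⟨h1, h2, h3⟩
    refine ⟨?_, ?_, ?_⟩
    · change (r * p).d 1 = 0
      simp [h1]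
    · change (r * p).x = 0
      simp [h1, h2]
    · change (r * p).y = 0
      simp [h1, h3]

/-- projection from a free module onto the kernel -/
def pr (k : Type) [Field k] : (Q k × (ℕ →₀ Q k)) →ₗ[Q k] Q k :=
  LinearMap.coprod (LinearMap.toSpanSingleton (Q k) (Q k) (1 - e 1))
    (Finsupp.linearCombination (Q k) (fun i => (ec i : Q k)))

lemma LL_projective (k : Type) [Field k] : Module.Projective (Q k) (LL k) := by
  -- section
  let σ : LL k →ₗ[Q k] (Q k × (ℕ →₀ Q k)) :=
    { toFun := fun l => ((l : Q k) * (1 - e 1),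
        Finsupp.mapRange (fun a : k => (⟨Pi.single 0 a, 0, 0, 0, 0, 0, 0, 0⟩ : Q k))
          (by ext j <;> simp) (l : Q k).c)
      map_add' := by
        intro l l'
        refine Prod.ext (add_mul _ _ _) ?_
        ext i j
        · by_cases hj : j = 0
          · subst hj; simp
          · simp [hj]
        all_goals simp
      map_smul' := by
        intro r l
        refine Prod.ext (mul_assoc _ _ _) ?_
        have hl := l.2.1
        ext i j
        · by_cases hj : j = 0
          · subst hj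
            simp [hl]
          · simp [hj]
        all_goals simp }
  have hmem : ∀ z, pr k z ∈ LL k := by
    rintro ⟨r, g⟩
    rw [pr, LinearMap.coprod_apply]
    refine (LL k).add_mem ?_ ?_
    · refine (LL k).smul_mem _ ⟨?_, ?_, ?_⟩
      · simp [sub_eq_add_neg]
      · simp [sub_eq_add_neg]
      · simp [sub_eq_add_neg]
    · rw [Finsupp.linearCombination_apply]
      refine (LL k).sum_mem fun i _ => (LL k).smul_mem _ ⟨rfl, rfl, rfl⟩
  refine Module.Projective.of_split σ ((pr k).codRestrict (LL k) hmem) ?_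
  ext1 l
  apply Subtype.ext
  change pr k (σ l) = (l : Q k)
  rw [pr, LinearMap.coprod_apply]
  have h1 : (Finsupp.linearCombination (Q k) (fun i => (ec i : Q k))) (σ l).2 =
      ⟨0, 0, 0, 0, (l : Q k).c, 0, 0, 0⟩ := by
    change (Finsupp.linearCombination (Q k) (fun i => (ec i : Q k)))
      (Finsupp.mapRange (fun a : k => (⟨Pi.single 0 a, 0, 0, 0, 0, 0, 0, 0⟩ : Q k))
          (by ext j <;> simp) (l : Q k).c) = _
    rw [Finsupp.linearCombination_apply, Finsupp.sum_mapRange_index (by simp)]
    have h2 : ∀ (i : ℕ) (a : k), (⟨Pi.single 0 a, 0, 0, 0, 0, 0, 0, 0⟩ : Q k) • (ec i : Q k) =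
        ⟨0, 0, 0, 0, Finsupp.single i a, 0, 0, 0⟩ := by
      intro i a
      change (⟨Pi.single 0 a, 0, 0, 0, 0, 0, 0, 0⟩ : Q k) * (ec i : Q k) = _
      ext j <;> simp [ec]
    simp_rw [h2]
    let cc : (ℕ →₀ k) →+ Q k := ⟨⟨fun f => ⟨0, 0, 0, 0, f, 0, 0, 0⟩, rfl⟩, by
      intro f g; ext j <;> simp⟩
    have h3 := map_finsuppSum cc (l : Q k).c (fun i a => Finsupp.single i a)
    rw [Finsupp.sum_single] at h3
    exact h3.symm
  have h4 : (LinearMap.toSpanSingleton (Q k) (Q k) (1 - e 1)) (σ l).1 = (l : Q k) * (1 - e 1) := by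
    change ((l : Q k) * (1 - e 1)) * (1 - e 1) = (l : Q k) * (1 - e 1)
    have : (1 - e 1 : Q k) * (1 - e 1) = 1 - e 1 := by
      rw [mul_sub, sub_mul, sub_mul, e_mul_e]; simp
    rw [mul_assoc, this]
  rw [h1, h4]
  have hl := l.2
  ext j
  · by_cases hj : j = 1
    · subst hj; simp [sub_eq_add_neg, hl.1]
    · simp [sub_eq_add_neg, hj]
  all_goals simp [sub_eq_add_neg, hl.1, hl.2.1, hl.2.2]

/-- The submodule `K = R (a,b)` of `R^2`. -/
def KK (k : Type) [Field k] : Submodule (Q k) (Fin 2 → Q k) :=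
  Submodule.span (Q k) {![ea, eb]}

/-- the surjection `R → K` -/
def GG (k : Type) [Field k] : Q k →ₗ[Q k] KK k :=
  (LinearMap.toSpanSingleton (Q k) (KK k) ⟨![ea, eb], Submodule.mem_span_singleton_self _⟩)

lemma GG_surj : Function.Surjective (GG k) := by
  rintro ⟨z, hz⟩
  obtain ⟨r, hr⟩ := Submodule.mem_span_singleton.1 hz
  exact ⟨r, Subtype.ext hr⟩

lemma GG_ker : LinearMap.ker (GG k) = LL k := by
  ext r
  rw [LinearMap.mem_ker]
  have h0 : (GG k r : Fin 2 → Q k) = ![r * ea, r * eb] := by
    change r • ![ea, eb] = _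
    ext1 i; fin_cases i <;> rfl
  have h1 : GG k r = 0 ↔ r * ea = 0 ∧ r * eb = 0 := by
    rw [← Subtype.coe_inj, h0]
    constructor
    · intro h
      exact ⟨congrFun h 0, congrFun h 1⟩
    · rintro ⟨h2, h3⟩
      ext1 i
      fin_cases i
      · exact h2
      · exact h3
  rw [h1]
  constructor
  · rintro ⟨h2, h3⟩
    refine ⟨?_, ?_, ?_⟩
    · have := congrArg (fun q : Q k => q.a) h2
      simpa [ea] using this
    · have := congrArg (fun q : Q k => q.w) h3
      simpa [eb] using this
    · have := congrArg (fun q : Q k => q.w) h2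
      simpa [ea] using this
  · rintro ⟨h2, h3, h4⟩
    constructor
    · ext j <;> simp [ea, h2, h3, h4]
    · ext j <;> simp [eb, h2, h3, h4]

lemma LL_not_fg (k : Type) [Field k] : ¬ (LL k).FG := by
  classical
  rintro ⟨T, hT⟩
  have hTL : ∀ z ∈ T, z ∈ LL k := fun z hz => hT ▸ Submodule.subset_span hz
  let P : Finset ℕ := T.biUnion fun z => z.c.support
  obtain ⟨i, hi⟩ := Infinite.exists_notMem_finset P
  have hall : ∀ z ∈ Submodule.span (Q k) (T : Set (Q k)), z.d 1 = 0 ∧ z.c i = 0 := by
    intro z hz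
    induction hz using Submodule.span_induction with
    | mem z hz =>
      refine ⟨(hTL z hz).1, ?_⟩
      by_contra hcon
      exact hi (Finset.mem_biUnion.2 ⟨z, hz, by simpa using hcon⟩)
    | zero => exact ⟨rfl, rfl⟩
    | add z z' _ _ h h' => exact ⟨by simp [h.1, h'.1], by simp [h.2, h'.2]⟩
    | smul r z _ h =>
      refine ⟨?_, ?_⟩
      · change (r * z).d 1 = 0
        simp [h.1]
      · change (r * z).c i = 0
        simp [h.1, h.2]
  have hci : (ec i : Q k) ∈ Submodule.span (Q k) (T : Set (Q k)) := by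
    rw [hT]
    exact ⟨rfl, rfl, rfl⟩
  have := (hall _ hci).2
  simp [ec] at this

theorem not_lee (k : Type) [Field k] : ¬ IsLeeCoherent (Q k) 2 := by
  intro h
  have hfp := h 2 (KK k) ⟨{![ea, eb]}, by simp [KK]⟩ (by
    have h2 : (((2 : ℕ∞) - 1 : ℕ∞) : WithBot ℕ∞) = ((1 : ℕ) : WithBot ℕ∞) := by
      have h2 : ((2 : ℕ∞) - 1) = 1 := by
        have : (2 : ℕ∞) = 1 + 1 := by norm_num
        rw [this]
        exact ENat.addLECancellable_of_ne_top (by simp) |>.add_tsub_cancel_left
      rw [h2]; rfl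
    rw [h2, pd_le_one_iff (GG k) GG_surj, GG_ker]
    exact LL_projective k)
  have := Module.FinitePresentation.fg_ker (GG k) GG_surj
  rw [GG_ker] at this
  exact LL_not_fg k this

/-- **Q1 has a negative answer**: for every field `k` the algebra `Q k` is weakly Lee
`2`-coherent but not Lee `2`-coherent. -/
theorem result : ∃ (R : Type) (_ : Ring R), IsWeaklyLeeCoherent R 2 ∧ ¬ IsLeeCoherent R 2 :=
  ⟨Q ℚ, inferInstance, weakly ℚ, not_lee ℚ⟩

end

end Pool.Agent.Results.MP_0b9bd1_al.WeaklyLeeNotLee
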